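import Pool.Agent.N848.SM.Stm
import Pool.Agent.R419.KF.Asy

/-!
# Project SM: the asymptotics for a fixed set `M` of primes with exponent `2` (helper519)

Adapted from the file `N883/FF/Asy.lean` of helper72 and helper883 (after `R419/KF/Asy.lean` of helper419
and `Y703/XK/Asy.lean` of helper703).
-/

set_option autoImplicit false

open scoped Classical
open Finset Filter

namespace Pool.Agent.N519.SM

open Pool.Agent.Y692.QS (Ei w nr toC)
open Pool.Agent.Y715.T.RecG (Pq)
open Pool.Agent.Y699.E (nrm QB pq_nrm_two)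
open Pool.Agent.Y703.CX (jj XX eL zz kk eL_tendsto logX_eq rpow_eL HH NN ev_eL one_le_exp
  HH_ge HH_le HH_pos kk_ge kk_le X_pos one_add_log lin_le zz_ge zz_pos)
open Pool.Agent.Y703.CQ (Sml sml_of sml_add)
open Pool.Agent.Y703.XK (sm la bl c9 S_C9 sml_eps kk_pos kap kap_nonneg kap_pow
  sml_main cmp)
open Pool.Agent.R419.KF.Cnt (CntP)
open Pool.Agent.R419.KF (SG sml_many sml_cut sml_coll SG_card)
open Pool.Agent.N883.FF (nq ClU SU RRU)
open Pool.Agent.N848.SM (mq Gd3 Nz Nd3 AsyM S_ASY3)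

namespace Asy

theorem SU_sub (M : Finset Ei) (X : ℕ) : SU M X ⊆ SG X := by
  intro S hS
  unfold SU at hS
  unfold SG
  rw [mem_filter] at hS ⊢
  exact ⟨hS.1, ⟨hS.2.1.1, trivial⟩, hS.2.2⟩

/-- the sets outside the regular part -/
theorem out_sub (M : Finset Ei) (X z H k V : ℕ) :
    SU M X \ ((RRU M X z H k V).filter fun S => Nd3 (sm z S) (la z S)) ⊆
      (((((SG X).filter fun S => k < S.card) ∪
      ((SG X).filter fun S => S.card ≤ k ∧
        X < (∏ π ∈ sm z S, nrm π) * ∏ π ∈ la z S, XX H (bl H π))) ∪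
      ((SG X).filter fun S => ¬ Set.InjOn (bl H) (la z S : Set Ei))) ∪
      ((SG X).filter fun S => S.card ≤ k ∧ (la z S).card ≤ (sm z S).card + V)) ∪
      ((SG X).filter fun S => S.card ≤ k ∧ ¬ Nd3 (sm z S) (la z S)) := by
  intro S hS
  rw [Finset.mem_sdiff, Finset.mem_filter] at hS
  obtain ⟨h1', h2⟩ := hS
  have h1 : S ∈ SG X := SU_sub M X h1'
  simp only [mem_union, mem_filter]
  by_contra hc
  push Not at hc
  obtain ⟨⟨⟨⟨c1, c2⟩, c3⟩, c4⟩, c5⟩ := hc
  have d1 : S.card ≤ k := c1 h1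
  have d2 := c2 h1 d1
  have d3 := c3 h1
  have d4 := c4 h1 d1
  have d5 := c5 h1 d1
  apply h2
  refine ⟨?_, d5⟩
  unfold RRU
  rw [mem_filter]
  exact ⟨h1', d3, d1, d2, d4⟩

theorem SU_card (M : Finset Ei) (X : ℕ) : ((SU M X).card : ℝ) ≤ 16 * X := by
  refine le_trans ?_ (SG_card X)
  exact_mod_cast card_le_card (SU_sub M X)

end Asy

open Asy in
/-- **the asymptotics for one `M`** -/
theorem t_ASY3 (h9 : S_C9) : S_ASY3 := by
  intro hbad hkey0 hbx i₀ M ε hε
  obtain ⟨C, hC1, hkey⟩ := hkey0 hbx i₀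
  obtain ⟨D, hD⟩ := Pool.Agent.R419.KF.Cnt.t_CNT
  obtain ⟨V, hV1, hV⟩ : ∃ V : ℕ, 2 ≤ V ∧ (1 / 3 : ℝ) ^ V < ε / 1152 := by
    obtain ⟨V, hV⟩ := exists_pow_lt_of_lt_one (show (0 : ℝ) < ε / 1152 by linarith)
      (show (1 / 3 : ℝ) < 1 by norm_num)
    refine ⟨V + 2, Nat.le_add_left _ _, lt_of_le_of_lt ?_ hV⟩
    exact pow_le_pow_of_le_one (by norm_num) (by norm_num) (Nat.le_add_right V 2)
  have hc0 : 0 ≤ 4 / 3 * c9 := by
    have := h9.2.1
    linarith
  have hc1 : 4 / 3 * c9 ≤ 1 := by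
    have := h9.2.2.2.2
    norm_num at this ⊢
    linarith
  have s1 := sml_many hD
  have s2 := sml_cut hD
  have s3 := sml_coll hD
  have s4 := sml_eps (Pool.Agent.R419.KF.Few.t_FEW V)
  have s5 := sml_eps hbad
  have s6 := sml_main hC1
  have s := sml_add (sml_add (sml_add (sml_add (sml_add s1 s2) s3) s4) s5) s6
  have hδ : (0 : ℝ) < ε / 2 := by positivity
  set m : ℕ := M.sup nrm with hm
  rw [← eventually_atTop]
  filter_upwards [s (ε / 2) hδ, ev_eL (max 1 (2 * m))] with X hX hl'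
  have hl : 1 ≤ eL X := (le_max_left _ _).trans hl'
  have hlm : 2 * (m : ℝ) ≤ eL X := (le_max_right _ _).trans hl'
  rw [neg_zero, zero_mul, Real.exp_zero, mul_one] at hX
  have hl0 : 0 < eL X := by linarith
  have hXp := X_pos hl0
  have hXp' : (0 : ℝ) < X := by exact_mod_cast hXp
  have hN : (HH X : ℝ) * Real.log X < NN X := by
    unfold NN
    push_cast
    exact Nat.lt_floor_add_one _
  have hMz : ∀ q ∈ M, nrm q ≤ zz X := by
    intro q hq
    have h5 : nrm q ≤ m := Finset.le_sup hq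
    refine h5.trans ?_
    have h6 := zz_ge hl
    have h7 : eL X ≤ Real.exp ((eL X) ^ 3) := by
      have h8 : eL X ≤ (eL X) ^ 3 := by
        have h9 : (eL X) ^ 3 = eL X * (eL X * eL X) := by ring
        rw [h9]
        nlinarith
      have := Real.add_one_le_exp ((eL X) ^ 3)
      linarith
    have h8 : (m : ℝ) ≤ zz X := by linarith
    exact_mod_cast h8
  have hmain := hkey M X (zz X) (HH X) (kk X) V (NN X) (kap C X) hMz hXp (HH_pos hl0) (zz_pos hl)
    hV1 (kap_nonneg hC1 X) (kap_pow hC1 hl) hN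
  set T := (RRU M X (zz X) (HH X) (kk X) V).filter fun S => Nd3 (sm (zz X) S) (la (zz X) S) with hT
  set T' := T.filter (Nz i₀ M) with hT'
  set S' := (SU M X).filter (Nz i₀ M) with hS'
  have hTG : (RRU M X (zz X) (HH X) (kk X) V).filter
      (fun S => Nd3 (sm (zz X) S) (la (zz X) S) ∧ Nz i₀ M S ∧ Gd3 i₀ M S) =
      T'.filter (Gd3 i₀ M) := by
    rw [hT', hT, filter_filter, filter_filter]
  have hTN : (RRU M X (zz X) (HH X) (kk X) V).filter
      (fun S => Nd3 (sm (zz X) S) (la (zz X) S) ∧ Nz i₀ M S) = T' := by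
    rw [hT', hT, filter_filter]
  have hSG : (SU M X).filter (fun S => Nz i₀ M S ∧ Gd3 i₀ M S) = S'.filter (Gd3 i₀ M) := by
    rw [hS', filter_filter]
  rw [hTG, hTN] at hmain
  rw [hSG]
  have hTS : T ⊆ SU M X := (filter_subset _ _).trans (filter_subset _ _)
  have hTS' : T' ⊆ S' := filter_subset_filter _ hTS
  have hRS : ((RRU M X (zz X) (HH X) (kk X) V).card : ℝ) ≤ ((SU M X).card : ℝ) := by
    exact_mod_cast card_le_card (filter_subset _ _)
  have hcmp := cmp (Gd3 i₀ M) T' S' hTS' (4 / 3 * c9) hc0 hc1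
  have hsd : ((S' \ T').card : ℝ) ≤ ((SU M X \ T).card : ℝ) := by
    have : (S' \ T').card ≤ (SU M X \ T).card := by
      apply card_le_card
      intro S hS
      rw [Finset.mem_sdiff, hS', hT', mem_filter, mem_filter] at hS
      rw [Finset.mem_sdiff]
      exact ⟨hS.1.1, fun h => hS.2 ⟨h, hS.1.2⟩⟩
    exact_mod_cast this
  have hout : ((SU M X \ T).card : ℝ) ≤
      ((((SG X).filter fun S => kk X < S.card).card : ℝ) +
      (((SG X).filter fun S => S.card ≤ kk X ∧
        X < (∏ π ∈ sm (zz X) S, nrm π) * ∏ π ∈ la (zz X) S, XX (HH X) (bl (HH X) π)).card : ℝ) +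
      (((SG X).filter fun S => ¬ Set.InjOn (bl (HH X)) (la (zz X) S : Set Ei)).card : ℝ) +
      (((SG X).filter fun S => S.card ≤ kk X ∧
        (la (zz X) S).card ≤ (sm (zz X) S).card + V).card : ℝ)) +
      (((SG X).filter fun S => S.card ≤ kk X ∧ ¬ Nd3 (sm (zz X) S) (la (zz X) S)).card : ℝ) := by
    have g := card_le_card (out_sub M X (zz X) (HH X) (kk X) V)
    rw [← hT] at g
    have g2 := (g.trans (card_union_le _ _)).trans (Nat.add_le_add_right ((card_union_le _ _).trans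
      (Nat.add_le_add_right ((card_union_le _ _).trans
      (Nat.add_le_add_right (card_union_le _ _) _)) _)) _)
    exact_mod_cast g2
  have g1 : 36 * (1 / 3 : ℝ) ^ V * ((RRU M X (zz X) (HH X) (kk X) V).card : ℝ) ≤ ε / 2 * X := by
    calc 36 * (1 / 3 : ℝ) ^ V * ((RRU M X (zz X) (HH X) (kk X) V).card : ℝ) ≤
        36 * (ε / 1152) * (16 * X) := by
          have := hRS.trans (SU_card M X)
          gcongr
      _ = ε / 2 * X := by ring
  linarith

end Pool.Agent.N519.SM
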